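import Pool.Agent.Q284.NP.Stm

/-!
# Project NP of helper284: job CEC (helper265)
-/

set_option autoImplicit false

namespace Pool.Agent.Q265.NP

open Pool.Agent.Q284.NP CategoryTheory AlgebraicGeometry TopologicalSpace Opposite

variable {X : Scheme.{0}} [IsIntegral X]

theorem gp {V : X.Opens} {x : X} (hx : x ∈ V) : genericPoint X ∈ V :=
  ((genericPoint_spec X).mem_open_set_iff V.isOpen).mpr ⟨x, trivial, hx⟩

/-- the germ at the generic point -/
noncomputable def gm (V : X.Opens) (h : genericPoint X ∈ V) : Γ(X, V) →+* X.functionField :=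
  (X.presheaf.germ V (genericPoint X) h).hom

theorem gm_inj (V : X.Opens) (h : genericPoint X ∈ V) : Function.Injective (gm V h) :=
  germ_injective_of_isIntegral X (genericPoint X) h

theorem gm_res {U V : X.Opens} (h : V ≤ U) (hV : genericPoint X ∈ V) (s : Γ(X, U)) :
    gm V hV (res h s) = gm U (h hV) s :=
  X.presheaf.germ_res_apply (homOfLE h) (genericPoint X) hV s

theorem alg_germ {V : X.Opens} {x : X} (hx : x ∈ V) (s : Γ(X, V)) :
    algebraMap (X.presheaf.stalk x) X.functionField ((X.presheaf.germ V x hx).hom s) =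
      gm V (gp hx) s := by
  have h : Nonempty V := ⟨⟨x, hx⟩⟩
  exact Scheme.algebraMap_germ_eq_germToFunctionField X hx s

/-- an element of the function field which is regular at all points of `U` is a section on `U` -/
theorem glue (U : X.Opens) (w : X.functionField)
    (hw : ∀ x ∈ U, ∃ a : X.presheaf.stalk x,
      algebraMap (X.presheaf.stalk x) X.functionField a = w) :
    ∃ s : Γ(X, U), ∀ h : genericPoint X ∈ U, gm U h s = w := by
  have h1 : ∀ x : U, ∃ (V : X.Opens) (hx : (x : X) ∈ V) (hV : V ≤ U) (b : Γ(X, V)),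
      gm V (gp hx) b = w := by
    rintro ⟨x, hx⟩
    obtain ⟨a, ha⟩ := hw x hx
    obtain ⟨V, hxV, b, hb⟩ := X.presheaf.exists_germ_eq a
    refine ⟨V ⊓ U, ⟨hxV, hx⟩, inf_le_right, res inf_le_left b, ?_⟩
    rw [gm_res inf_le_left, ← alg_germ hxV]
    rw [← ha, ← hb]
  choose V hx hV b hb using h1
  have hcov : U ≤ iSup V := by
    intro x hxU
    exact Opens.mem_iSup.2 ⟨⟨x, hxU⟩, hx ⟨x, hxU⟩⟩
  obtain ⟨s, hs, -⟩ := X.sheaf.existsUnique_gluing' V U (fun i => homOfLE (hV i)) hcov b (by
    intro i j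
    by_cases hne : genericPoint X ∈ V i ⊓ V j
    · apply gm_inj (V i ⊓ V j) hne
      have e1 := gm_res (inf_le_left : V i ⊓ V j ≤ V i) hne (b i)
      have e2 := gm_res (inf_le_right : V i ⊓ V j ≤ V j) hne (b j)
      rw [hb] at e1 e2
      exact e1.trans e2.symm
    · have hbot : V i ⊓ V j = ⊥ := by
        ext z
        constructor
        · intro hz
          exact absurd (gp hz) hne
        · intro hz
          exact hz.elim
      have hsub : Subsingleton Γ(X, V i ⊓ V j) := by
        rw [hbot]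
        infer_instance
      exact @Subsingleton.elim _ hsub _ _)
  refine ⟨s, fun h => ?_⟩
  obtain ⟨i, hi⟩ := Opens.mem_iSup.1 (hcov h)
  have e1 := gm_res (hV i) hi s
  have e2 : res (hV i) s = b i := hs i
  rw [e2, hb] at e1
  exact e1.symm

/-- the Cech argument -/
theorem cec : S_CEC := by
  intro p hpp X hX hchar hH1 hroot f hf
  have hp : p ≠ 0 := hpp.out.ne_zero
  have h1 : ∀ x : X, ∃ (U : X.Opens) (_ : x ∈ U) (b : Γ(X, U)) (w : X.functionField),
      ∀ h : genericPoint X ∈ U, f = gm U h b + w ^ p := by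
    intro x
    obtain ⟨a, w, haw⟩ := hf x
    obtain ⟨U, hxU, b, hb⟩ := X.presheaf.exists_germ_eq a
    refine ⟨U, hxU, b, w, fun h => ?_⟩
    rw [haw, ← hb]
    congr 1
    exact alg_germ hxU b
  choose U hU b w hbw using h1
  have hgen : ∀ x y : X, genericPoint X ∈ U x ⊓ U y := fun x y => ⟨gp (hU x), gp (hU y)⟩
  have h2 : ∀ x y : X, ∃ s : Γ(X, U x ⊓ U y), ∀ h : genericPoint X ∈ U x ⊓ U y,
      gm (U x ⊓ U y) h s = w y - w x := by
    intro x y
    refine glue (U x ⊓ U y) (w y - w x) fun z hz => hroot z _ ?_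
    refine ⟨(X.presheaf.germ (U x) z hz.1).hom (b x) - (X.presheaf.germ (U y) z hz.2).hom (b y), ?_⟩
    rw [map_sub, alg_germ hz.1, alg_germ hz.2, sub_pow_char]
    have e1 := hbw x (gp hz.1)
    have e2 := hbw y (gp hz.2)
    rw [e1] at e2
    linear_combination e2
  choose s hs using h2
  have hcov : (⨆ x, U x) = ⊤ := by
    rw [eq_top_iff]
    intro x _
    exact Opens.mem_iSup.2 ⟨x, hU x⟩
  obtain ⟨g, hg⟩ := hH1 X U hcov s (by
    intro x y z
    have hη : genericPoint X ∈ U x ⊓ U y ⊓ U z := ⟨hgen x y, gp (hU z)⟩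
    apply gm_inj _ hη
    rw [map_add, gm_res, gm_res, gm_res, hs, hs, hs]
    ring)
  have h3 : ∀ x y : X, w x - gm (U x) (gp (hU x)) (g x) = w y - gm (U y) (gp (hU y)) (g y) := by
    intro x y
    have e1 := congrArg (gm (U x ⊓ U y) (hgen x y)) (hg x y)
    rw [hs, map_sub, gm_res, gm_res] at e1
    linear_combination -e1
  set W : X.functionField := w (genericPoint X) -
    gm (U (genericPoint X)) (gp (hU (genericPoint X))) (g (genericPoint X)) with hW
  obtain ⟨G, hG⟩ := glue (⊤ : X.Opens) (f - W ^ p) (fun x _ => by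
    refine ⟨(X.presheaf.germ (U x) x (hU x)).hom (b x + g x ^ p), ?_⟩
    rw [alg_germ (hU x), map_add, map_pow]
    have e1 := hbw x (gp (hU x))
    have e2 : W = w x - gm (U x) (gp (hU x)) (g x) := h3 _ _
    rw [e2, sub_pow_char]
    linear_combination -e1)
  refine ⟨G, W, ?_⟩
  have e3 := hG trivial
  have e4 : (X.presheaf.germ ⊤ (genericPoint X) trivial).hom G = f - W ^ p := e3
  rw [e4]
  ring

end Pool.Agent.Q265.NP
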